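import Mathlib
import Pool.Agent.Lib.MP_00f3b1_ag.Variety

/-!
Automorphisms of the variety, transitivity, failure of 2-transitivity, and the ring theoretic
properties of the ring of regular functions.
-/

set_option autoImplicit false

open Polynomial Matrix

namespace Pool.Agent.Lib.MP_00f3b1_ag

section ring
variable {R : Type} [Ring R]

lemma peirce_zero {e : R} (h : e * e = e) (N : R) : e * (N - e * N * (1 - e)) * (1 - e) = 0 := by
  have h1 : (1 - e) * (1 - e) = 1 - e := by noncomm_ring [h]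
  calc e * (N - e * N * (1 - e)) * (1 - e)
      = e * N * (1 - e) - (e * e) * N * ((1 - e) * (1 - e)) := by noncomm_ring
    _ = 0 := by rw [h, h1, sub_self]

lemma T2a {e f M : R} (hff : f * f = f) (hef : e * f = f) (hfe : f * e = e) :
    f + f * (e - f + (M - f * M * (1 - f))) * (1 - f) = e := by
  have h1 := peirce_zero hff M
  calc f + f * (e - f + (M - f * M * (1 - f))) * (1 - f)
      = f + (f * e - f * f) * (1 - f) + f * (M - f * M * (1 - f)) * (1 - f) := by noncomm_ring
    _ = f + (e - f) * (1 - f) := by rw [h1, hfe, hff, add_zero]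
    _ = f + (e - f - e * f + f * f) := by noncomm_ring
    _ = e := by rw [hef, hff]; abel

lemma T2b {e f M : R} (hee : e * e = e) (hef : e * f = f) (hfe : f * e = e)
    (hM : e * M * (1 - e) = 0) :
    (e - f + (M - f * M * (1 - f))) - e * (e - f + (M - f * M * (1 - f))) * (1 - e) = M := by
  have h1 : (1 - f) * (1 - e) = 1 - f := by
    calc (1 - f) * (1 - e) = 1 - e - f + f * e := by noncomm_ring
      _ = 1 - f := by rw [hfe]; abel
  calc (e - f + (M - f * M * (1 - f))) - e * (e - f + (M - f * M * (1 - f))) * (1 - e)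
      = (e - f + (M - f * M * (1 - f))) - ((e * e - e * f) - (e * e * e - e * f * e))
        - e * M * (1 - e) + (e * f) * M * ((1 - f) * (1 - e)) := by noncomm_ring
    _ = M := by rw [hM, h1, hee, hee, hef, hfe]; abel

lemma T1 {e f N : R} (hef : e * f = f) (hfe : f * e = e) (he : e = f + f * N * (1 - f)) :
    e - f + ((N - e * N * (1 - e)) - f * (N - e * N * (1 - e)) * (1 - f)) = N := by
  have h1 : (1 - e) * (1 - f) = 1 - e := by
    calc (1 - e) * (1 - f) = 1 - e - f + e * f := by noncomm_ring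
      _ = 1 - e := by rw [hef]; abel
  have h2 : e - f = f * N * (1 - f) := by rw [sub_eq_iff_eq_add, add_comm]; exact he
  calc e - f + ((N - e * N * (1 - e)) - f * (N - e * N * (1 - e)) * (1 - f))
      = e - f + N - e * N * (1 - e) - f * N * (1 - f) + (f * e) * N * ((1 - e) * (1 - f)) := by
        noncomm_ring
    _ = N := by rw [h1, hfe, h2]; abel

end ring

lemma IsX.move {e : Mat} (h : IsX e) (N : Mat) : IsX (e + e * N * (1 - e)) := by
  obtain ⟨p, hp⟩ := h.exists_over
  exact (hp.move N).isX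

lemma IsX.idem {e : Mat} (h : IsX e) : e * e = e := by
  obtain ⟨p, hp⟩ := h.exists_over
  exact hp.mul hp

/-- the parametrisation of a fibre attached to a projector -/
def lift (f : Mat) (h : IsX f) (N1 N2 : Mat) : Z where
  e := f + f * N1 * (1 - f)
  M := N1 - (f + f * N1 * (1 - f)) * N1 * (1 - (f + f * N1 * (1 - f)))
  N := N2
  hX := h.move N1
  hM := peirce_zero (h.move N1).idem N1

lemma lift_pt {f : Mat} (h : IsX f) {p : W.Point} (hp : Over f p) (N1 N2 : Mat) :
    (lift f h N1 N2).pt = p := Z.pt_eq (hp.move N1)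

/-- the inverse of the parametrisation -/
def theta (f : Mat) (z : Z) : Mat := z.e - f + (z.M - f * z.M * (1 - f))

lemma lift_theta {f : Mat} (h : IsX f) (z : Z) (hp : Over f z.pt) (N : Mat) :
    lift f h (theta f z) N = ⟨z.e, z.M, N, z.hX, z.hM⟩ := by
  have h1 : f + f * theta f z * (1 - f) = z.e := T2a h.idem (z.over.mul hp) (hp.mul z.over)
  apply Z.ext
  · exact h1
  · show theta f z - (f + f * theta f z * (1 - f)) * theta f z * (1 - (f + f * theta f z * (1 - f)))
      = z.M
    rw [h1]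
    exact T2b z.hX.idem (z.over.mul hp) (hp.mul z.over) z.hM
  · rfl

lemma theta_lift {f : Mat} (h : IsX f) (N1 N2 : Mat) : theta f (lift f h N1 N2) = N1 := by
  obtain ⟨p, hp⟩ := h.exists_over
  exact T1 ((hp.move N1).mul hp) (hp.mul (hp.move N1)) rfl

lemma RZ_lift {T : Type} {B : Subalgebra ℂ (T → ℂ)} {f N1 N2 : T → Mat} (h : ∀ t, IsX (f t))
    (hf : RM B f) (h1 : RM B N1) (h2 : RM B N2) :
    RZ B (fun t => lift (f t) (h t) (N1 t) (N2 t)) := by
  have he : RM B (fun t => f t + f t * N1 t * (1 - f t)) :=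
    hf.add ((hf.mul h1).mul ((RM.const 1).sub hf))
  exact ⟨he, h1.sub ((he.mul h1).mul ((RM.const 1).sub he)), h2⟩

lemma RM_theta {T : Type} {B : Subalgebra ℂ (T → ℂ)} {f : T → Mat} {γ : T → Z}
    (hf : RM B f) (h : RZ B γ) : RM B (fun t => theta (f t) (γ t)) :=
  (h.1.sub hf).add (h.2.1.sub ((hf.mul h.2.1).mul ((RM.const 1).sub hf)))

lemma RZ_id : RZ A (fun z => z) := ⟨RM_e, RM_M, RM_N⟩

/-- forget the two last matrices -/
def base (z : Z) : Z := ⟨z.e, 0, 0, z.hX, by simp⟩

/-- the chosen regular family of projectors, depending only on the first matrix -/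
noncomputable def r (a : W.Point) (z : Z) : Mat := Classical.choose (exists_proj a) (base z)

lemma r_over (a : W.Point) (z : Z) : Over (r a z) (z.pt + a) := by
  have := (Classical.choose_spec (exists_proj a)).2 (base z)
  rwa [Z.pt_eq (z := base z) z.over] at this

lemma r_reg (a : W.Point) : RM A (r a) :=
  RZ.compM (γ := base) ⟨RM_e, RM.const 0, RM.const 0⟩ (Classical.choose_spec (exists_proj a)).1

lemma r_congr (a : W.Point) {z z' : Z} (h : z.e = z'.e) : r a z = r a z' := by
  have : base z = base z' := Z.ext h rfl rfl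
  rw [r, r, this]

/-- the lift of the translation by `a` -/
noncomputable def Phi (a : W.Point) (z : Z) : Z :=
  lift (r a z) (r_over a z).isX z.N
    (theta (r (-a) (lift (r a z) (r_over a z).isX z.N 0)) z)

lemma Phi_pt (a : W.Point) (z : Z) : (Phi a z).pt = z.pt + a := lift_pt _ (r_over a z) _ _

lemma Phi_reg (a : W.Point) : RZ A (Phi a) :=
  RZ_lift _ (r_reg a) RM_N (RM_theta
    (RZ.compM (RZ_lift (fun z => (r_over a z).isX) (r_reg a) RM_N (RM.const 0)) (r_reg (-a))) RZ_id)

lemma lift_congr {f f' : Mat} (h : IsX f) (h' : IsX f') (hf : f = f') (N1 N2 : Mat) :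
    lift f h N1 N2 = lift f' h' N1 N2 := by subst hf; rfl

lemma Phi_Phi (a : W.Point) (z : Z) : Phi (-a) (Phi a z) = z := by
  have e1 : r (-a) (lift (r a z) (r_over a z).isX z.N 0) = r (-a) (Phi a z) := r_congr _ rfl
  have hp : Over (r (-a) (Phi a z)) z.pt := by
    have := r_over (-a) (Phi a z)
    rwa [Phi_pt, add_neg_cancel_right] at this
  have e2 : (Phi a z).N = theta (r (-a) (Phi a z)) z := by rw [← e1]; rfl
  have e3 : ∀ N, lift (r (-a) (Phi a z)) (r_over (-a) (Phi a z)).isX (Phi a z).N N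
      = ⟨z.e, z.M, N, z.hX, z.hM⟩ := fun N => by rw [e2]; exact lift_theta _ z hp N
  rw [Phi, e3, e3, neg_neg]
  have e4 : r a ⟨z.e, z.M, 0, z.hX, z.hM⟩ = r a z := r_congr _ rfl
  rw [e4]
  apply Z.ext
  · rfl
  · rfl
  · exact theta_lift _ _ _

/-- translation in the free matrix -/
def tr (C : Mat) (z : Z) : Z := ⟨z.e, z.M, z.N + C, z.hX, z.hM⟩

lemma tr_reg (C : Mat) : RZ A (tr C) := ⟨RM_e, RM_M, RM_N.add (RM.const C)⟩

lemma tr_tr (C : Mat) (z : Z) : tr (-C) (tr C z) = z := by
  apply Z.ext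
  · rfl
  · rfl
  · simp [tr]

/-- pull back of functions along a regular self map -/
noncomputable def pull (φ : Z → Z) (h : RZ A φ) : A →ₐ[ℂ] A where
  toFun f := ⟨fun z => (f : Z → ℂ) (φ z), h.comp f.2⟩
  map_one' := rfl
  map_mul' _ _ := rfl
  map_zero' := rfl
  map_add' _ _ := rfl
  commutes' _ := rfl

/-- automorphism of the ring attached to a biregular self map -/
noncomputable def pullE (φ ψ : Z → Z) (h : RZ A φ) (h' : RZ A ψ) (l : ∀ z, φ (ψ z) = z)
    (l' : ∀ z, ψ (φ z) = z) : A ≃ₐ[ℂ] A :=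
  AlgEquiv.ofAlgHom (pull φ h) (pull ψ h')
    (by ext f z; exact congrArg (f : Z → ℂ) (l' z))
    (by ext f z; exact congrArg (f : Z → ℂ) (l z))

/-- two points are related when an automorphism moves the first to the second -/
def Rel (z z' : Z) : Prop := ∃ α : A ≃ₐ[ℂ] A, ∀ f, ev z (α f) = ev z' f

lemma Rel.trans {a b c : Z} (h : Rel a b) (h' : Rel b c) : Rel a c := by
  obtain ⟨α, hα⟩ := h
  obtain ⟨β, hβ⟩ := h'
  exact ⟨β.trans α, fun f => by rw [AlgEquiv.trans_apply, hα, hβ]⟩

lemma rel_Phi (a : W.Point) (z : Z) : Rel z (Phi a z) :=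
  ⟨pullE (Phi a) (Phi (-a)) (Phi_reg a) (Phi_reg (-a))
    (fun z => by have := Phi_Phi (-a) z; rwa [neg_neg] at this) (Phi_Phi a), fun _ => rfl⟩

lemma rel_tr (C : Mat) (z : Z) : Rel z (tr C z) :=
  ⟨pullE (tr C) (tr (-C)) (tr_reg C) (tr_reg (-C))
    (fun z => by have := tr_tr (-C) z; rwa [neg_neg] at this) (tr_tr C), fun _ => rfl⟩

theorem transitive (z1 z2 : Z) : Rel z1 z2 := by
  set a := z2.pt - z1.pt with ha
  have hp : Over (r a z1) z2.pt := by
    have := r_over a z1
    rwa [ha, add_sub_cancel] at this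
  set z3 := tr (theta (r a z1) z2 - z1.N) z1 with hz3
  have e1 : r a z3 = r a z1 := r_congr _ rfl
  have e2 : z3.N = theta (r a z1) z2 := by simp [hz3, tr]
  have e3 : Phi a z3 = ⟨z2.e, z2.M, (Phi a z3).N, z2.hX, z2.hM⟩ := by
    rw [← lift_theta hp.isX z2 hp, ← e2]
    exact lift_congr _ _ e1 _ _
  have e4 : tr (z2.N - (Phi a z3).N) (Phi a z3) = z2 := by
    rw [e3]
    apply Z.ext
    · rfl
    · rfl
    · simp [tr]
  have := ((rel_tr _ z1).trans (rel_Phi a z3)).trans (rel_tr (z2.N - (Phi a z3).N) _)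
  rwa [e4] at this

/-- polynomial functions on the line -/
noncomputable def PF : Subalgebra ℂ (ℂ → ℂ) := (Polynomial.aeval (fun t : ℂ => t)).range

lemma mem_PF {h : ℂ → ℂ} : h ∈ PF ↔ ∃ P : ℂ[X], ∀ t, h t = P.eval t := by
  constructor
  · rintro ⟨P, rfl⟩
    exact ⟨P, fun t => by simp [Polynomial.aeval_fn_apply]⟩
  · rintro ⟨P, hP⟩
    exact ⟨P, funext fun t => by simp [Polynomial.aeval_fn_apply, hP]⟩

lemma id_PF : (fun t : ℂ => t) ∈ PF := mem_PF.2 ⟨X, by simp⟩

/-- polynomial curves lie in fibres -/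
lemma curve_const (γ : ℂ → Z) (h : RZ PF γ) (s t : ℂ) : (γ s).pt = (γ t).pt := by
  choose P hP' using fun i j => mem_PF.1 (h.1 i j)
  have hP : ∀ i j t, (γ t).e i j = eval t (P i j) := hP'
  obtain ⟨j, hj⟩ := exists_diag (γ s).over.1
  have hF : Fc (fun i => P i j) = 0 := by
    apply Polynomial.funext
    intro u
    have := map_Fc (Polynomial.evalRingHom u) (fun i => P i j)
    simp only [coe_evalRingHom, ← hP] at this
    rw [this, eval_zero]
    exact (γ u).hX.2.2 j
  have hne : (fun i => P i j) ≠ 0 := by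
    intro h0
    apply hj
    rw [hP, show P j j = 0 from congrFun h0 j, eval_zero]
  obtain ⟨g, w, hw⟩ := poly_const _ hF hne
  have g0 : g ≠ 0 := by
    rintro rfl
    exact hne (funext fun i => by rw [hw i]; simp)
  have w0 : w ≠ 0 := by
    rintro rfl
    exact hne (funext fun i => by rw [hw i]; simp)
  have hmin : ∀ i k l, P i l * C (w k) = P k l * C (w i) := by
    intro i k l
    apply mul_left_cancel₀ g0
    have : P i l * P k j = P i j * P k l := by
      apply Polynomial.funext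
      intro u
      simp only [eval_mul, ← hP]
      exact (γ u).hX.1 i l k j
    rw [hw k, hw i] at this
    linear_combination this
  have key : ∀ u, InL (γ u).pt w := by
    intro u
    obtain ⟨l, hl⟩ := exists_diag (γ u).over.1
    have := ((γ u).over.2 l).smul (w l / (γ u).e l l)
    convert this using 1
    funext i
    have h1 := congrArg (eval u) (hmin i l l)
    simp only [eval_mul, eval_C, ← hP] at h1
    simp only [Pi.smul_apply, smul_eq_mul]
    field_simp
    linear_combination - h1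
  exact (key s).unique (key t) w0

/-- a section over the affine part of the curve -/
def sec (q : U0) : Mat := Matrix.of fun i j => if j = 2 then q.vec i else 0

lemma sec_over (q : U0) : Over (sec q) q.pt := by
  refine ⟨by simp [sec, U0.vec], fun j => ?_⟩
  by_cases hj : j = 2
  · simpa [sec, hj] using q.inL
  · simp only [sec, Matrix.of_apply, hj, if_false]
    exact InL.zero _

lemma sec_reg : RM OU sec := by
  intro i j
  by_cases hj : j = 2
  · simp only [sec, Matrix.of_apply, hj, if_true]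
    fin_cases i
    · exact OU_x
    · exact OU_y
    · exact const_mem OU 1
  · simp only [sec, Matrix.of_apply, hj, if_false]
    exact const_mem OU 0

/-- parametrisation of the part over the affine curve -/
def par (q : U0) (N1 N2 : Mat) : Z := lift (sec q) (sec_over q).isX N1 N2

lemma par_pt (q : U0) (N1 N2 : Mat) : (par q N1 N2).pt = q.pt := lift_pt _ (sec_over q) _ _

lemma par_reg (N1 N2 : Mat) : RZ OU (fun q => par q N1 N2) :=
  RZ_lift _ sec_reg (RM.const _) (RM.const _)

lemma exists_par {z : Z} (h : z.pt ≠ 0) : ∃ q N1 N2, z = par q N1 N2 := by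
  obtain ⟨q, hq⟩ := exists_U0 h
  exact ⟨q, theta (sec q) z, z.N, (lift_theta _ z (hq ▸ sec_over q) z.N).symm⟩

lemma line_reg (f : Mat) (h : IsX f) (N1 N2 D1 D2 : Mat) :
    RZ PF (fun t => lift f h (N1 + t • D1) (N2 + t • D2)) :=
  RZ_lift (fun _ => h) (RM.const _) ((RM.const _).add (RM.smul id_PF (RM.const _)))
    ((RM.const _).add (RM.smul id_PF (RM.const _)))

lemma exists_ne_x (c : ℂ) : (fun q : U0 => q.1.1 - c) ≠ 0 := by
  obtain ⟨y, hy⟩ := exists_over (c + 1)
  intro h
  have : c + 1 - c = 0 := congrFun h ⟨(c + 1, y), hy⟩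
  simp at this

lemma dense {f : Z → ℂ} (hf : f ∈ A) (h : ∀ q N1 N2, f (par q N1 N2) = 0) : f = 0 := by
  have h0 : ∀ z : Z, z.pt ≠ 0 → f z = 0 := fun z hz => by
    obtain ⟨q, N1, N2, rfl⟩ := exists_par hz
    exact h _ _ _
  funext z
  by_cases hz : z.pt = 0
  swap
  · exact h0 z hz
  have hz1 : (Phi b1.pt z).pt = b1.pt := by rw [Phi_pt, hz, zero_add]
  obtain ⟨q1, N1, N2, h1⟩ := exists_par (z := Phi b1.pt z) (by rw [hz1]; exact b1.pt_ne_zero)
  have hq1 : q1.pt = b1.pt := by rw [← hz1, h1, par_pt]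
  have hreg : (fun q => f (Phi (-b1.pt) (par q N1 N2))) ∈ OU :=
    (par_reg N1 N2).comp ((Phi_reg _).comp hf)
  have hzero : (fun q => f (Phi (-b1.pt) (par q N1 N2))) = 0 := by
    by_contra hne
    obtain ⟨q, k1, k2⟩ := OU_domain hreg (OU.sub_mem OU_x (const_mem OU q1.1.1)) hne
      (exists_ne_x _)
    apply k1
    apply h0
    rw [Phi_pt, par_pt, ← hq1, ← sub_eq_add_neg, sub_ne_zero]
    intro hq
    apply k2
    rw [U0.pt_inj hq]; simp
  have := congrFun hzero q1
  simp only [← h1, Phi_Phi] at this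
  exact this

lemma exists_par_ne {f : A} (hf : f ≠ 0) : ∃ q N1 N2, ev (par q N1 N2) f ≠ 0 := by
  by_contra h
  push Not at h
  exact hf (Subtype.ext (dense f.2 h))

lemma PF_domain {h k : ℂ → ℂ} (hh : h ∈ PF) (hk : k ∈ PF) {s t : ℂ} (h0 : h s ≠ 0) (k0 : k t ≠ 0) :
    ∃ u, h u ≠ 0 ∧ k u ≠ 0 := by
  obtain ⟨P, hP⟩ := mem_PF.1 hh
  obtain ⟨Q, hQ⟩ := mem_PF.1 hk
  have P0 : P ≠ 0 := by rintro rfl; simp [hP] at h0
  have Q0 : Q ≠ 0 := by rintro rfl; simp [hQ] at k0
  by_contra hx
  push Not at hx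
  apply mul_ne_zero P0 Q0
  apply Polynomial.funext
  intro u
  rw [eval_mul, ← hP, ← hQ, eval_zero]
  by_cases h1 : h u = 0
  · rw [h1, zero_mul]
  · rw [hx u h1, mul_zero]

instance A_nontrivial : Nontrivial A :=
  (ev (par b1 0 0)).toRingHom.domain_nontrivial

instance A_noZeroDivisors : NoZeroDivisors A := by
  constructor
  intro f g hfg
  by_contra h
  push Not at h
  obtain ⟨q1, N1, N2, h1⟩ := exists_par_ne h.1
  obtain ⟨q2, M1, M2, h2⟩ := exists_par_ne h.2
  obtain ⟨u, k1, k2⟩ := PF_domain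
    ((line_reg _ (sec_over q1).isX N1 N2 (M1 - N1) (M2 - N2)).comp f.2)
    ((line_reg _ (sec_over q2).isX N1 N2 (M1 - N1) (M2 - N2)).comp g.2) (s := 0) (t := 1)
    (by simpa [par] using h1) (by simpa [par] using h2)
  obtain ⟨q, l1, l2⟩ := OU_domain
    ((par_reg (N1 + u • (M1 - N1)) (N2 + u • (M2 - N2))).comp f.2)
    ((par_reg (N1 + u • (M1 - N1)) (N2 + u • (M2 - N2))).comp g.2)
    (fun h0 => k1 (congrFun h0 q1)) (fun h0 => k2 (congrFun h0 q2))
  have := congrArg (ev (par q (N1 + u • (M1 - N1)) (N2 + u • (M2 - N2)))) hfg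
  rw [map_mul, map_zero] at this
  exact mul_ne_zero l1 l2 this

instance A_isDomain : IsDomain A := NoZeroDivisors.to_isDomain _

theorem units_const (u : A) (hu : IsUnit u) : ∃ c : ℂ, algebraMap ℂ A c = u := by
  have hne : ∀ z, (u : Z → ℂ) z ≠ 0 := fun z => (hu.map (ev z)).ne_zero
  obtain ⟨c, hc⟩ := OU_unit ((par_reg 0 0).comp u.2) (fun q => hne _)
  refine ⟨c, ?_⟩
  rw [← sub_eq_zero]
  by_contra h0
  obtain ⟨q, N1, N2, h1⟩ := exists_par_ne h0
  apply h1
  obtain ⟨P, hP⟩ := mem_PF.1 ((line_reg _ (sec_over q).isX 0 0 N1 N2).comp u.2)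
  have hd := poly_nowhere_zero (n := P) (fun x => by rw [← hP]; exact hne _)
  obtain ⟨d, rfl⟩ := natDegree_eq_zero.1 hd
  have e0 := hP 0
  have e1 := hP 1
  simp only [zero_smul, add_zero, eval_C, one_smul, zero_add] at e0 e1
  rw [map_sub, AlgHom.commutes, sub_eq_zero, ev_apply]
  exact ((hc q).symm.trans e0).trans e1.symm

/-- the standard line in the variety -/
noncomputable def ln (t : ℂ) : Z := lift (sec b1) (sec_over b1).isX (0 + t • 0) (0 + t • 1)

lemma ln_reg : RZ PF ln := line_reg _ _ _ _ _ _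

lemma ln_N (t : ℂ) : (ln t).N = t • (1 : Mat) := by simp [ln, lift]

theorem not_two_transitive : ∃ z0 z1 w0 w1 : Z, z0 ≠ z1 ∧ w0 ≠ w1 ∧
    ¬ ∃ α : A ≃ₐ[ℂ] A, (∀ f, ev z0 (α f) = ev w0 f) ∧ ∀ f, ev z1 (α f) = ev w1 f := by
  have hw : (par b1 0 0).pt ≠ (par b2 0 0).pt := by rw [par_pt, par_pt]; exact b1_ne_b2
  refine ⟨ln 0, ln 1, par b1 0 0, par b2 0 0, ?_, fun h => hw (by rw [h]), ?_⟩
  · intro h
    have := congrArg (fun z : Z => z.N 0 0) h
    simp [ln_N] at this
  · rintro ⟨α, h0, h1⟩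
    choose γ hγ using fun t => hom_eq_ev ((ev (ln t)).comp (α : A →ₐ[ℂ] A))
    have hco : ∀ k, (fun t => co k (γ t)) ∈ PF := by
      intro k
      have := ln_reg.comp (α ⟨co k, co_mem k⟩).2
      convert this using 1
      funext t
      exact (DFunLike.congr_fun (hγ t) ⟨co k, co_mem k⟩).symm
    have hreg : RZ PF γ := ⟨fun i j => hco (0, i, j), fun i j => hco (1, i, j),
      fun i j => hco (2, i, j)⟩
    have e0 : γ 0 = par b1 0 0 := ev_inj (by rw [← hγ]; ext f; exact h0 f)
    have e1 : γ 1 = par b2 0 0 := ev_inj (by rw [← hγ]; ext f; exact h1 f)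
    apply hw
    rw [← e0, ← e1]
    exact curve_const γ hreg 0 1

theorem two_le_dim : (2 : WithBot ℕ∞) ≤ ringKrullDim A := by
  let P1 : Ideal A :=
    { carrier := {f | ∀ t, ev (ln t) f = 0}
      add_mem' := fun {f g} hf hg t => by rw [map_add, hf t, hg t, add_zero]
      zero_mem' := fun t => map_zero _
      smul_mem' := fun g f hf t => by rw [smul_eq_mul, map_mul, hf t, mul_zero] }
  have hP1 : P1.IsPrime := by
    constructor
    · intro h
      have : (1 : A) ∈ P1 := by rw [h]; trivial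
      simpa using this 0
    · intro f g hfg
      by_contra h
      push Not at h
      obtain ⟨h1, h2⟩ := h
      obtain ⟨s, hs⟩ : ∃ s, ev (ln s) f ≠ 0 := by
        by_contra hh
        push Not at hh
        exact h1 hh
      obtain ⟨t, ht⟩ : ∃ s, ev (ln s) g ≠ 0 := by
        by_contra hh
        push Not at hh
        exact h2 hh
      obtain ⟨u, k1, k2⟩ := PF_domain (ln_reg.comp f.2) (ln_reg.comp g.2) hs ht
      have := hfg u
      rw [map_mul] at this
      exact mul_ne_zero k1 k2 this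
  let p0 : PrimeSpectrum A := ⟨⊥, Ideal.isPrime_bot⟩
  let p1 : PrimeSpectrum A := ⟨P1, hP1⟩
  let p2 : PrimeSpectrum A := ⟨RingHom.ker (ev (ln 0)).toRingHom, RingHom.ker_isPrime _⟩
  have h01 : p0 < p1 := by
    refine lt_of_le_of_ne bot_le ?_
    intro h
    have h1 : (⟨co (2, 0, 1), co_mem _⟩ : A) ∈ p1.asIdeal := fun t => by
      show (ln t).N 0 1 = 0
      simp [ln_N]
    rw [← h] at h1
    have h2 := congrArg (ev (par b1 0 (Matrix.of fun _ _ => 1))) (Ideal.mem_bot.1 h1)
    rw [map_zero] at h2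
    exact one_ne_zero h2
  have h12 : p1 < p2 := by
    refine lt_of_le_of_ne (fun f hf => hf 0) ?_
    intro h
    have h1 : (⟨co (2, 0, 0), co_mem _⟩ : A) ∈ p2.asIdeal := by
      show (ln 0).N 0 0 = 0
      simp [ln_N]
    rw [← h] at h1
    have h2 : (ln 1).N 0 0 = 0 := h1 1
    simp [ln_N] at h2
  let c : LTSeries (PrimeSpectrum A) :=
    LTSeries.mk 2 ![p0, p1, p2] (Fin.strictMono_iff_lt_succ.2 (by
      intro i; fin_cases i
      · exact h01
      · exact h12))
  exact Order.LTSeries.length_le_krullDim c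

end Pool.Agent.Lib.MP_00f3b1_ag
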