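import Mathlib

/-!
The elliptic curve `y^2 z = x^3 - 3 z^3` over an algebraically closed field of characteristic zero: lines attached to points,
polynomial addition laws, absence of rational curves, functions on the affine part.
-/

set_option autoImplicit false
set_option linter.unusedSectionVars false

open Polynomial WeierstrassCurve WeierstrassCurve.Projective

namespace Pool.Agent.Lib.MP_00f3b1_ag.Gen

universe u

/-- an algebraically closed field of characteristic zero, bundled -/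
class FD where
  /-- the field -/
  K : Type u
  [fld : Field K]
  [ac : IsAlgClosed K]
  [cz : CharZero K]

attribute [instance_reducible, instance] FD.fld
attribute [instance] FD.ac FD.cz

variable [D : FD.{u}]

/-- the curve -/
noncomputable def W : WeierstrassCurve.Projective FD.K := ⟨0, 0, 0, 0, -3⟩

/-- the cubic form -/
def Fc {R : Type u} [CommRing R] (v : Fin 3 → R) : R := v 1 ^ 2 * v 2 - v 0 ^ 3 + 3 * v 2 ^ 3

lemma map_Fc {R S : Type u} [CommRing R] [CommRing S] (φ : R →+* S) (v : Fin 3 → R) :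
    φ (Fc v) = Fc (fun i => φ (v i)) := by
  simp [Fc, map_ofNat]

lemma Fc_smul {R : Type u} [CommRing R] (c : R) (v : Fin 3 → R) : Fc (c • v) = c ^ 3 * Fc v := by
  simp [Fc]; ring

lemma nonsing_iff (v : Fin 3 → FD.K) : W.Nonsingular v ↔ Fc v = 0 ∧ v ≠ 0 := by
  rw [nonsingular_iff, equation_iff]
  simp only [W, Fc]
  constructor
  · rintro ⟨h1, h2⟩
    refine ⟨by linear_combination h1, ?_⟩
    rintro rfl
    simp at h2
  · rintro ⟨h1, h2⟩
    refine ⟨by linear_combination h1, ?_⟩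
    by_contra h
    push Not at h
    obtain ⟨a, b, c⟩ := h
    apply h2
    have h0 : v 0 = 0 := by
      have : v 0 ^ 2 = 0 := by linear_combination (-1 / 3 : FD.K) * a
      exact pow_eq_zero_iff (two_ne_zero) |>.1 this
    have hz : v 2 = 0 := by
      have : v 2 ^ 3 = 0 := by linear_combination (1 / 9 : FD.K) * v 2 * c - (1 / 18 : FD.K) * v 1 * b
      exact pow_eq_zero_iff (three_ne_zero) |>.1 this
    have hy : v 1 = 0 := by
      have : v 1 ^ 2 = 0 := by rw [hz] at c; linear_combination c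
      exact pow_eq_zero_iff (two_ne_zero) |>.1 this
    funext i
    fin_cases i
    · exact h0
    · exact hy
    · exact hz

/-- a chosen vector representing a point -/
noncomputable def rep (p : W.Point) : Fin 3 → FD.K := Quotient.out p.point

lemma rep_class (p : W.Point) : (⟦rep p⟧ : PointClass FD.K) = p.point := Quotient.out_eq _

lemma rep_nonsing (p : W.Point) : W.Nonsingular (rep p) := by
  rw [← nonsingularLift_iff, rep_class]; exact p.nonsingular

lemma rep_ne (p : W.Point) : rep p ≠ 0 := ((nonsing_iff _).1 (rep_nonsing p)).2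

lemma rep_Fc (p : W.Point) : Fc (rep p) = 0 := ((nonsing_iff _).1 (rep_nonsing p)).1

/-- the vector `v` lies on the line of the point `p` -/
def InL (p : W.Point) (v : Fin 3 → FD.K) : Prop := ∃ c : FD.K, v = c • rep p

lemma InL.zero (p : W.Point) : InL p 0 := ⟨0, by simp⟩

lemma InL.add {p : W.Point} {v w : Fin 3 → FD.K} (h : InL p v) (h' : InL p w) : InL p (v + w) := by
  obtain ⟨c, rfl⟩ := h
  obtain ⟨d, rfl⟩ := h'
  exact ⟨c + d, by rw [add_smul]⟩

lemma InL.smul {p : W.Point} {v : Fin 3 → FD.K} (h : InL p v) (d : FD.K) : InL p (d • v) := by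
  obtain ⟨c, rfl⟩ := h
  exact ⟨d * c, by rw [mul_smul]⟩

lemma InL.rep (p : W.Point) : InL p (rep p) := ⟨1, by simp⟩

lemma InL.Fc {p : W.Point} {v : Fin 3 → FD.K} (h : InL p v) : Fc v = 0 := by
  obtain ⟨c, rfl⟩ := h
  rw [Fc_smul, rep_Fc, mul_zero]

lemma InL.class_eq {p : W.Point} {v : Fin 3 → FD.K} (h : InL p v) (hv : v ≠ 0) :
    (⟦v⟧ : PointClass FD.K) = p.point := by
  obtain ⟨c, rfl⟩ := h
  have hc : c ≠ 0 := by rintro rfl; simp at hv
  rw [smul_eq _ hc.isUnit, rep_class]

lemma inL_of_class {p : W.Point} {v : Fin 3 → FD.K} (h : (⟦v⟧ : PointClass FD.K) = p.point) :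
    InL p v := by
  rw [← rep_class] at h
  obtain ⟨u, hu⟩ := Quotient.exact h
  exact ⟨u, hu.symm⟩

lemma InL.unique {p q : W.Point} {v : Fin 3 → FD.K} (h : InL p v) (h' : InL q v) (hv : v ≠ 0) :
    p = q :=
  Point.ext ((h.class_eq hv).symm.trans (h'.class_eq hv))

/-- the point of a nonzero vector on the cone -/
noncomputable def mkPt (v : Fin 3 → FD.K) (h : Fc v = 0) (hv : v ≠ 0) : W.Point :=
  ⟨(nonsingularLift_iff v).2 ((nonsing_iff v).2 ⟨h, hv⟩)⟩

lemma inL_mkPt (v : Fin 3 → FD.K) (h : Fc v = 0) (hv : v ≠ 0) : InL (mkPt v h hv) v :=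
  inL_of_class rfl

lemma law_ne {p q : W.Point} {v : Fin 3 → FD.K} (h : InL p v) (hv : v ≠ 0) (hpq : p ≠ q) :
    InL (p + q) (W.addXYZ v (rep q)) ∧ W.addXYZ v (rep q) ≠ 0 := by
  have hne : ¬ v ≈ rep q := by
    intro he
    apply hpq
    apply Point.ext
    rw [← h.class_eq hv, ← rep_class q]
    exact Quotient.sound he
  have hns := nonsingular_add ((nonsing_iff v).2 ⟨h.Fc, hv⟩) (rep_nonsing q)
  rw [add_of_not_equiv hne] at hns
  refine ⟨inL_of_class ?_, ((nonsing_iff _).1 hns).2⟩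
  rw [Point.add_point, ← h.class_eq hv, ← rep_class q, addMap_eq, add_of_not_equiv hne]

lemma law {p q : W.Point} {v : Fin 3 → FD.K} (h : InL p v) :
    InL (p + q) (W.addXYZ v (rep q)) := by
  by_cases hv : v = 0
  · have := addXYZ_smul (W' := W) v (rep q) 0 1
    rw [hv] at this ⊢
    simp only [smul_zero, one_smul, mul_one, ne_eq, OfNat.ofNat_ne_zero, not_false_eq_true,
      zero_pow, zero_smul] at this
    rw [this]; exact InL.zero _
  by_cases hpq : p = q
  · subst hpq
    obtain ⟨c, rfl⟩ := h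
    have := addXYZ_smul (W' := W) (rep p) (rep p) c 1
    rw [one_smul, addXYZ_self] at this
    rw [this]
    refine ⟨0, ?_⟩
    funext i; fin_cases i <;> simp
  · exact (law_ne h hv hpq).1

/-- a square root of `-3` -/
noncomputable def y0 : FD.K := Classical.choose (IsAlgClosed.exists_pow_nat_eq (-3 : FD.K) two_pos)

lemma y0_sq : y0 ^ 2 = -3 := Classical.choose_spec (IsAlgClosed.exists_pow_nat_eq (-3 : FD.K) two_pos)

lemma y0_ne : y0 ≠ 0 := by
  intro h
  have := y0_sq
  rw [h] at this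
  norm_num at this

/-- points of the affine part of the curve -/
def U0 : Type u := {q : FD.K × FD.K // q.2 ^ 2 = q.1 ^ 3 - 3}

/-- homogeneous coordinates of an affine point -/
def U0.vec (q : U0) : Fin 3 → FD.K := ![q.1.1, q.1.2, 1]

lemma U0.vec_Fc (q : U0) : Fc q.vec = 0 := by
  have := q.2
  simp [Fc, U0.vec]; linear_combination this

lemma U0.vec_ne (q : U0) : q.vec ≠ 0 := by
  intro h
  have := congrFun h 2
  simp [U0.vec] at this

/-- the projective point of an affine point -/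
noncomputable def U0.pt (q : U0) : W.Point := mkPt q.vec q.vec_Fc q.vec_ne

lemma U0.inL (q : U0) : InL q.pt q.vec := inL_mkPt _ _ _

lemma U0.pt_inj {q q' : U0} (h : q.pt = q'.pt) : q = q' := by
  have h1 : (⟦q.vec⟧ : PointClass FD.K) = ⟦q'.vec⟧ := congrArg Point.point h
  have h2 := (equiv_iff_eq_of_Z_eq (P := q.vec) (Q := q'.vec) rfl (by simp [U0.vec])).1
    (Quotient.exact h1)
  apply Subtype.ext
  apply Prod.ext
  · simpa [U0.vec] using congrFun h2 0
  · simpa [U0.vec] using congrFun h2 1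

lemma U0.pt_ne_zero (q : U0) : q.pt ≠ 0 := by
  intro h
  have h1 : (⟦q.vec⟧ : PointClass FD.K) = ⟦![0, 1, 0]⟧ := congrArg Point.point h
  have := (Z_eq_zero_of_equiv (Quotient.exact h1)).2 rfl
  simp [U0.vec] at this

lemma exists_U0 {p : W.Point} (hp : p ≠ 0) : ∃ q : U0, q.pt = p := by
  have hz : rep p 2 ≠ 0 := by
    intro hz
    apply hp
    apply Point.ext
    rw [← rep_class, Point.zero_point]
    exact Quotient.sound (equiv_zero_of_Z_eq_zero (rep_nonsing p) hz)
  have hF := rep_Fc p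
  refine ⟨⟨(rep p 0 / rep p 2, rep p 1 / rep p 2), ?_⟩, ?_⟩
  · simp only [Fc] at hF
    field_simp
    linear_combination hF
  · apply Point.ext
    rw [← rep_class p]
    exact Quotient.sound (Setoid.symm (equiv_some_of_Z_ne_zero hz))

/-- a point which is not 2-torsion -/
noncomputable def b1 : U0 := ⟨(0, y0), by simp [y0_sq]⟩

/-- its negative -/
noncomputable def b2 : U0 := ⟨(0, -y0), by simp [y0_sq]⟩

lemma b1_ne_b2 : b1.pt ≠ b2.pt := by
  intro h
  have := congrArg (fun q : U0 => q.1.2) (U0.pt_inj h)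
  simp only [b1, b2] at this
  exact y0_ne (by linear_combination (1 / 2 : FD.K) * this)

lemma neg_b1 : -b1.pt = b2.pt := by
  apply Point.ext
  rw [Point.neg_point]
  show W.negMap ⟦b1.vec⟧ = ⟦b2.vec⟧
  rw [negMap_eq]
  congr 1
  funext i
  fin_cases i <;> simp [neg, negY, U0.vec, b1, b2, W]

lemma exists_aux (a : W.Point) : ∃ b : W.Point, a ≠ b ∧ a + b ≠ a - b := by
  have h12 := b1_ne_b2
  have hn := neg_b1
  by_cases h : a = b1.pt
  · refine ⟨b2.pt, h ▸ h12, ?_⟩
    intro h'
    apply h12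
    rw [sub_eq_add_neg, add_right_inj, ← hn, neg_neg] at h'
    rw [← hn]; exact h'.symm
  · refine ⟨b1.pt, h, ?_⟩
    intro h'
    apply h12
    rw [sub_eq_add_neg, add_right_inj, hn] at h'
    exact h'

/-- No rational curves on the cone: a polynomial solution is a polynomial multiple of a constant
vector. -/
lemma poly_const (v : Fin 3 → FD.K[X]) (hF : Fc v = 0) (hv : v ≠ 0) :
    ∃ (g : FD.K[X]) (w : Fin 3 → FD.K), ∀ i, v i = g * C (w i) := by
  classical
  obtain ⟨u, hu, hg⟩ := Finset.extract_gcd (s := (Finset.univ : Finset (Fin 3))) v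
    Finset.univ_nonempty
  set g := Finset.univ.gcd v with hgdef
  have hu' : ∀ i, v i = g * u i := fun i => hu i (Finset.mem_univ i)
  have g0 : g ≠ 0 := by
    intro h
    apply hv
    funext i
    rw [hu' i, h, zero_mul]; rfl
  have hFu : Fc u = 0 := by
    have : v = g • u := funext fun i => hu' i
    rw [this, Fc_smul] at hF
    exact (mul_eq_zero.1 hF).resolve_left (pow_ne_zero _ g0)
  have hdvd : ∀ π : FD.K[X], π ∣ u 0 → π ∣ u 1 → π ∣ u 2 → IsUnit π := by
    intro π h0 h1 h2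
    apply isUnit_of_dvd_one
    rw [← hg]
    apply Finset.dvd_gcd
    intro i _
    fin_cases i
    · exact h0
    · exact h1
    · exact h2
  set a := u 1 + 3 * u 2 with ha
  set b := - u 1 + 3 * u 2 with hb
  have heq : a ^ 3 + b ^ 3 = 18 * u 0 ^ 3 := by
    simp only [Fc] at hFu
    rw [ha, hb]; linear_combination 18 * hFu
  have hy : u 1 = C (1 / 2 : FD.K) * (a - b) := by
    have : (C (1 / 2 : FD.K) : FD.K[X]) * 2 = 1 := by
      rw [show (2 : FD.K[X]) = C 2 from rfl, ← C_mul]; norm_num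
    rw [ha, hb]; linear_combination (-(u 1)) * this
  have hz : u 2 = C (1 / 6 : FD.K) * (a + b) := by
    have : (C (1 / 6 : FD.K) : FD.K[X]) * 6 = 1 := by
      rw [show (6 : FD.K[X]) = C 6 from rfl, ← C_mul]; norm_num
    rw [ha, hb]; linear_combination (-(u 2)) * this
  have hx : u 0 ^ 3 = C (1 / 18 : FD.K) * (a ^ 3 + b ^ 3) := by
    have : (C (1 / 18 : FD.K) : FD.K[X]) * 18 = 1 := by
      rw [show (18 : FD.K[X]) = C 18 from rfl, ← C_mul]; norm_num
    rw [heq]; linear_combination (-(u 0 ^ 3)) * this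
  have hcop : IsCoprime a b := by
    apply isCoprime_of_irreducible_dvd
    · rintro ⟨h1, h2⟩
      have e0 : u 0 = 0 := by
        rw [h1, h2] at hx
        exact pow_eq_zero_iff (three_ne_zero) |>.1 (by simpa using hx)
      have e1 : u 1 = 0 := by rw [hy, h1, h2]; simp
      have e2 : u 2 = 0 := by rw [hz, h1, h2]; simp
      exact not_isUnit_zero (hdvd 0 (by simp [e0]) (by simp [e1]) (by simp [e2]))
    · intro π hπ h1 h2
      apply hπ.not_isUnit
      apply hdvd
      · apply hπ.prime.dvd_of_dvd_pow (n := 3)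
        rw [hx]
        exact Dvd.dvd.mul_left (dvd_add (dvd_pow h1 three_ne_zero) (dvd_pow h2 three_ne_zero)) _
      · rw [hy]; exact Dvd.dvd.mul_left (dvd_sub h1 h2) _
      · rw [hz]; exact Dvd.dvd.mul_left (dvd_add h1 h2) _
  have hdeg : a.natDegree = 0 ∧ b.natDegree = 0 ∧ (u 0).natDegree = 0 := by
    by_cases h0 : u 0 = 0
    · have e : a ^ 3 = - b ^ 3 := by rw [h0] at heq; linear_combination heq
      have ua : IsUnit a := by
        apply (hcop.pow_right (n := 3)).isUnit_of_dvd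
        exact ⟨- a ^ 2, by linear_combination e⟩
      have ub : IsUnit b := by
        apply (hcop.symm.pow_right (n := 3)).isUnit_of_dvd
        exact ⟨- b ^ 2, by linear_combination e⟩
      exact ⟨natDegree_eq_zero_of_isUnit ua, natDegree_eq_zero_of_isUnit ub, by simp [h0]⟩
    by_cases h1 : a = 0
    · have ub : IsUnit b := by rw [h1] at hcop; exact isCoprime_zero_left.1 hcop
      have ux : IsUnit (u 0) := by
        apply isUnit_of_dvd_unit _ (ub.pow 3)
        exact ⟨18 * u 0 ^ 2, by rw [h1] at heq; linear_combination heq⟩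
      exact ⟨by simp [h1], natDegree_eq_zero_of_isUnit ub, natDegree_eq_zero_of_isUnit ux⟩
    by_cases h2 : b = 0
    · have ua : IsUnit a := by rw [h2] at hcop; exact isCoprime_zero_right.1 hcop
      have ux : IsUnit (u 0) := by
        apply isUnit_of_dvd_unit _ (ua.pow 3)
        exact ⟨18 * u 0 ^ 2, by rw [h2] at heq; linear_combination heq⟩
      exact ⟨natDegree_eq_zero_of_isUnit ua, by simp [h2], natDegree_eq_zero_of_isUnit ux⟩
    apply Polynomial.flt_catalan (p := 3) (q := 3) (r := 3) (by norm_num) (by norm_num)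
      (by norm_num) (by norm_num) (by norm_num) (by norm_num) (by norm_num) h1 h2 h0 hcop
      (u := 1) (v := 1) (w := -18) one_ne_zero one_ne_zero (by norm_num)
    rw [map_neg, show (C (18 : FD.K) : FD.K[X]) = 18 from rfl, map_one]
    linear_combination heq
  obtain ⟨α, hα⟩ := natDegree_eq_zero.1 hdeg.1
  obtain ⟨β, hβ⟩ := natDegree_eq_zero.1 hdeg.2.1
  obtain ⟨γ, hγ⟩ := natDegree_eq_zero.1 hdeg.2.2
  refine ⟨g, ![γ, 1 / 2 * (α - β), 1 / 6 * (α + β)], fun i => ?_⟩
  rw [hu' i]
  congr 1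
  fin_cases i
  · simp [hγ]
  · show u 1 = C (1 / 2 * (α - β))
    rw [hy, ← hα, ← hβ, C_mul, C_sub]
  · show u 2 = C (1 / 6 * (α + β))
    rw [hz, ← hα, ← hβ, C_mul, C_add]

/-- polynomial functions on the affine curve -/
noncomputable def OU : Subalgebra FD.K (U0 → FD.K) where
  carrier := {h | ∃ a b : FD.K[X], ∀ q : U0, h q = a.eval q.1.1 + b.eval q.1.1 * q.1.2}
  mul_mem' := by
    rintro f g ⟨a, b, h⟩ ⟨c, d, h'⟩
    refine ⟨a * c + b * d * (X ^ 3 - 3), a * d + b * c, fun q => ?_⟩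
    have := q.2
    simp only [Pi.mul_apply, h, h', eval_add, eval_mul, eval_sub, eval_pow, eval_X, eval_ofNat]
    linear_combination (eval q.1.1 b * eval q.1.1 d) * this
  add_mem' := by
    rintro f g ⟨a, b, h⟩ ⟨c, d, h'⟩
    refine ⟨a + c, b + d, fun q => ?_⟩
    simp only [Pi.add_apply, h, h', eval_add]; ring
  algebraMap_mem' := fun r => ⟨C r, 0, fun q => by simp⟩

lemma OU_x : (fun q : U0 => q.1.1) ∈ OU := ⟨X, 0, fun q => by simp⟩

lemma OU_y : (fun q : U0 => q.1.2) ∈ OU := ⟨0, 1, fun q => by simp⟩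

lemma exists_over (x : FD.K) : ∃ y : FD.K, y ^ 2 = x ^ 3 - 3 :=
  IsAlgClosed.exists_pow_nat_eq _ two_pos

lemma norm_deg (a b : FD.K[X]) (h : (a ^ 2 - b ^ 2 * (X ^ 3 - 3)).natDegree = 0) :
    b = 0 ∧ a.natDegree = 0 := by
  have hb : b = 0 := by
    by_contra hb
    obtain ⟨c, hc⟩ := natDegree_eq_zero.1 h
    have e : a ^ 2 = b ^ 2 * (X ^ 3 - 3) + C c := by rw [hc]; ring
    have d3 : (X ^ 3 - 3 : FD.K[X]).natDegree = 3 := by
      rw [show (3 : FD.K[X]) = C 3 from rfl]; exact natDegree_X_pow_sub_C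
    have n3 : (X ^ 3 - 3 : FD.K[X]) ≠ 0 := by
      intro h0; rw [h0] at d3; simp at d3
    have d1 : (b ^ 2 * (X ^ 3 - 3) : FD.K[X]).natDegree = 2 * b.natDegree + 3 := by
      rw [natDegree_mul (pow_ne_zero _ hb) n3, natDegree_pow, d3]
    have d2 := congrArg natDegree e
    rw [natDegree_add_C, d1, natDegree_pow] at d2
    omega
  refine ⟨hb, ?_⟩
  rw [hb] at h
  simp only [ne_eq, OfNat.ofNat_ne_zero, not_false_eq_true, zero_pow, zero_mul, sub_zero,
    natDegree_pow] at h
  omega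

lemma OU_norm {h : U0 → FD.K} (hh : h ∈ OU) (h0 : h ≠ 0) :
    ∃ n : FD.K[X], n ≠ 0 ∧ ∀ q : U0, h q = 0 → n.eval q.1.1 = 0 := by
  obtain ⟨a, b, hab⟩ := hh
  refine ⟨a ^ 2 - b ^ 2 * (X ^ 3 - 3), ?_, fun q hq => ?_⟩
  · intro hn
    obtain ⟨hb, -⟩ := norm_deg a b (by rw [hn]; simp)
    rw [hb] at hn
    have ha : a = 0 := by simpa using hn
    apply h0
    funext q
    rw [hab q, ha, hb]; simp
  · have := q.2
    rw [hab q] at hq
    simp only [eval_sub, eval_mul, eval_pow, eval_X, eval_ofNat]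
    linear_combination (eval q.1.1 a - eval q.1.1 b * q.1.2) * hq + (eval q.1.1 b) ^ 2 * this

lemma OU_domain {h k : U0 → FD.K} (hh : h ∈ OU) (hk : k ∈ OU) (h0 : h ≠ 0) (k0 : k ≠ 0) :
    ∃ q, h q ≠ 0 ∧ k q ≠ 0 := by
  obtain ⟨n, n0, hn⟩ := OU_norm hh h0
  obtain ⟨m, m0, hm⟩ := OU_norm hk k0
  have : ∃ x, (n * m).eval x ≠ 0 := by
    by_contra hx
    push Not at hx
    exact mul_ne_zero n0 m0 (Polynomial.funext (by simpa using hx))
  obtain ⟨x, hx⟩ := this
  obtain ⟨y, hy⟩ := exists_over x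
  rw [eval_mul] at hx
  exact ⟨⟨(x, y), hy⟩, fun h1 => left_ne_zero_of_mul hx (hn _ h1),
    fun h1 => right_ne_zero_of_mul hx (hm _ h1)⟩

lemma poly_nowhere_zero {n : FD.K[X]} (h : ∀ x, n.eval x ≠ 0) : n.natDegree = 0 := by
  by_contra hd
  have : n.degree ≠ 0 := fun h' => hd (natDegree_eq_zero_iff_degree_le_zero.2 h'.le)
  obtain ⟨x, hx⟩ := IsAlgClosed.exists_root n this
  exact h x hx

lemma OU_unit {h : U0 → FD.K} (hh : h ∈ OU) (h0 : ∀ q, h q ≠ 0) : ∃ c, ∀ q, h q = c := by
  obtain ⟨a, b, hab⟩ := hh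
  have : (a ^ 2 - b ^ 2 * (X ^ 3 - 3)).natDegree = 0 := by
    apply poly_nowhere_zero
    intro x
    obtain ⟨y, hy⟩ := exists_over x
    have h1 := h0 ⟨(x, y), hy⟩
    have h2 := h0 ⟨(x, -y), by simpa using hy⟩
    rw [hab] at h1 h2
    have := mul_ne_zero h1 h2
    simp only [eval_sub, eval_mul, eval_pow, eval_X, eval_ofNat] at this ⊢
    intro h3
    apply this
    linear_combination h3 - (eval x b) ^ 2 * hy
  obtain ⟨hb, ha⟩ := norm_deg a b this
  obtain ⟨c, hc⟩ := natDegree_eq_zero.1 ha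
  exact ⟨c, fun q => by rw [hab, hb, ← hc]; simp⟩

end Pool.Agent.Lib.MP_00f3b1_ag.Gen
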