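import Mathlib
import Pool.Agent.Lib.MP_00f3b1_ag.GCurve

/-!
The affine variety of triples `(e, M, N)` of 3 by 3 matrices, where `e` is a rank one projector
whose image lies on the elliptic curve and `e M (1 - e) = 0`; its ring of regular functions.
-/

set_option autoImplicit false
set_option linter.unusedSectionVars false

open Polynomial Matrix

namespace Pool.Agent.Lib.MP_00f3b1_ag.Gen

universe u

variable [D : FD.{u}]

/-- 3 by 3 matrices over the field -/
abbrev Mat : Type u := Matrix (Fin 3) (Fin 3) FD.K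

/-- equations of a rank one projector with image on the cubic -/
def IsX {R : Type u} [CommRing R] (e : Matrix (Fin 3) (Fin 3) R) : Prop :=
  (∀ i j k l, e i j * e k l = e i l * e k j) ∧ e 0 0 + e 1 1 + e 2 2 = 1 ∧
    ∀ j, Fc (fun i => e i j) = 0

lemma IsX.map {R S : Type u} [CommRing R] [CommRing S] (φ : R →+* S) {e : Matrix (Fin 3) (Fin 3) R}
    (h : IsX e) : IsX (e.map φ) := by
  obtain ⟨h1, h2, h3⟩ := h
  refine ⟨fun i j k l => ?_, ?_, fun j => ?_⟩
  · simpa using congrArg φ (h1 i j k l)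
  · simpa using congrArg φ h2
  · have := congrArg φ (h3 j)
    rw [map_Fc, map_zero] at this
    exact this

/-- `e` is a projector onto the line of `p` -/
def Over (e : Mat) (p : W.Point) : Prop :=
  e 0 0 + e 1 1 + e 2 2 = 1 ∧ ∀ j, InL p (fun i => e i j)

lemma Over.exists_form {e : Mat} {p : W.Point} (h : Over e p) :
    ∃ ξ : Fin 3 → FD.K, (∀ i j, e i j = rep p i * ξ j) ∧
      rep p 0 * ξ 0 + rep p 1 * ξ 1 + rep p 2 * ξ 2 = 1 := by
  obtain ⟨h1, h2⟩ := h
  choose ξ hξ using h2
  have : ∀ i j, e i j = rep p i * ξ j := fun i j => by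
    have := congrFun (hξ j) i
    simp only [Pi.smul_apply, smul_eq_mul] at this
    rw [this, mul_comm]
  exact ⟨ξ, this, by rw [← h1, this, this, this]⟩

lemma Over.isX {e : Mat} {p : W.Point} (h : Over e p) : IsX e := by
  obtain ⟨ξ, h1, h2⟩ := h.exists_form
  refine ⟨fun i j k l => ?_, h.1, fun j => (h.2 j).Fc⟩
  simp only [h1]; ring

lemma exists_diag {e : Mat} (h : e 0 0 + e 1 1 + e 2 2 = 1) : ∃ j, e j j ≠ 0 := by
  by_contra hh
  push Not at hh
  rw [hh, hh, hh] at h
  simp at h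

lemma col_ne {e : Mat} {j : Fin 3} (h : e j j ≠ 0) : (fun i => e i j) ≠ 0 :=
  fun h0 => h (congrFun h0 j)

lemma IsX.exists_over {e : Mat} (h : IsX e) : ∃ p, Over e p := by
  obtain ⟨h1, h2, h3⟩ := h
  obtain ⟨j, hj⟩ := exists_diag h2
  refine ⟨mkPt _ (h3 j) (col_ne hj), h2, fun l => ?_⟩
  have := (inL_mkPt _ (h3 j) (col_ne hj)).smul (e j l / e j j)
  convert this using 1
  funext i
  simp only [Pi.smul_apply, smul_eq_mul]
  field_simp
  linear_combination - h1 i j j l

lemma Over.unique {e : Mat} {p q : W.Point} (h : Over e p) (h' : Over e q) : p = q := by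
  obtain ⟨j, hj⟩ := exists_diag h.1
  exact (h.2 j).unique (h'.2 j) (col_ne hj)

lemma Over.mul {e e' : Mat} {p : W.Point} (h : Over e p) (h' : Over e' p) : e * e' = e' := by
  obtain ⟨ξ, h1, h2⟩ := h.exists_form
  obtain ⟨η, k1, -⟩ := h'.exists_form
  ext i j
  simp only [Matrix.mul_apply, Fin.sum_univ_three, h1, k1]
  linear_combination (rep p i * η j) * h2

lemma Over.move {e : Mat} {p : W.Point} (h : Over e p) (N : Mat) :
    Over (e + e * N * (1 - e)) p := by
  have hee := h.mul h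
  constructor
  · have t1 : Matrix.trace (e * N * (1 - e)) = 0 := by
      rw [Matrix.trace_mul_comm, ← Matrix.mul_assoc, Matrix.sub_mul, hee]; simp
    have t2 := h.1
    simp only [Matrix.trace, Matrix.diag, Fin.sum_univ_three] at t1
    simp only [Matrix.add_apply]
    linear_combination t1 + t2
  · intro j
    have e1 : e + e * N * (1 - e) = e * (1 + N * (1 - e)) := by
      rw [Matrix.mul_add, Matrix.mul_one, Matrix.mul_assoc]
    rw [e1]
    set B := 1 + N * (1 - e)
    have := (((h.2 0).smul (B 0 j)).add ((h.2 1).smul (B 1 j))).add ((h.2 2).smul (B 2 j))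
    convert this using 1
    funext i
    simp only [Matrix.mul_apply, Fin.sum_univ_three, Pi.add_apply, Pi.smul_apply, smul_eq_mul]
    ring

lemma exists_over_pt (p : W.Point) : ∃ e, Over e p := by
  obtain ⟨i, hi⟩ := Function.ne_iff.1 (rep_ne p)
  simp only [Pi.zero_apply] at hi
  refine ⟨Matrix.of fun a b => if b = i then rep p a / rep p i else 0, ?_, fun j => ?_⟩
  · fin_cases i <;> simp at hi ⊢ <;> exact hi
  · by_cases hj : j = i
    · refine ⟨(rep p i)⁻¹, ?_⟩
      funext a; simp [hj]; ring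
    · refine ⟨0, ?_⟩
      funext a; simp [hj]

/-- the variety -/
@[ext] structure Z : Type u where
  /-- the projector -/
  e : Mat
  /-- the constrained matrix -/
  M : Mat
  /-- the free matrix -/
  N : Mat
  hX : IsX e
  hM : e * M * (1 - e) = 0

/-- projection to the elliptic curve -/
noncomputable def Z.pt (z : Z) : W.Point := Classical.choose z.hX.exists_over

lemma Z.over (z : Z) : Over z.e z.pt := Classical.choose_spec z.hX.exists_over

lemma Z.pt_eq {z : Z} {p : W.Point} (h : Over z.e p) : z.pt = p := z.over.unique h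

/-- coordinates -/
def co (k : Fin 3 × Fin 3 × Fin 3) (z : Z) : FD.K := ![z.e, z.M, z.N] k.1 k.2.1 k.2.2

/-- the ring of regular functions -/
noncomputable def A : Subalgebra FD.K (Z → FD.K) := Algebra.adjoin FD.K (Set.range co)

lemma co_mem (k : Fin 3 × Fin 3 × Fin 3) : co k ∈ A := Algebra.subset_adjoin ⟨k, rfl⟩

/-- matrix valued maps with entries in a given algebra of functions -/
def RM {T : Type u} (B : Subalgebra FD.K (T → FD.K)) (g : T → Mat) : Prop :=
  ∀ i j, (fun t => g t i j) ∈ B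

section RM
variable {T : Type u} {B : Subalgebra FD.K (T → FD.K)}

lemma const_mem (B : Subalgebra FD.K (T → FD.K)) (c : FD.K) : (fun _ => c) ∈ B := B.algebraMap_mem c

lemma RM.const (C : Mat) : RM B (fun _ => C) := fun _ _ => const_mem B _

lemma RM.add {g h : T → Mat} (hg : RM B g) (hh : RM B h) : RM B (fun t => g t + h t) :=
  fun i j => B.add_mem (hg i j) (hh i j)

lemma RM.sub {g h : T → Mat} (hg : RM B g) (hh : RM B h) : RM B (fun t => g t - h t) :=
  fun i j => B.sub_mem (hg i j) (hh i j)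

lemma RM.mul {g h : T → Mat} (hg : RM B g) (hh : RM B h) : RM B (fun t => g t * h t) := by
  intro i j
  simp only [Matrix.mul_apply, Fin.sum_univ_three]
  exact B.add_mem (B.add_mem (B.mul_mem (hg i 0) (hh 0 j)) (B.mul_mem (hg i 1) (hh 1 j)))
    (B.mul_mem (hg i 2) (hh 2 j))

lemma RM.smul {g : T → Mat} {f : T → FD.K} (hf : f ∈ B) (hg : RM B g) : RM B (fun t => f t • g t) :=
  fun i j => B.mul_mem hf (hg i j)

/-- regular maps to the variety -/
def RZ (B : Subalgebra FD.K (T → FD.K)) (γ : T → Z) : Prop :=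
  RM B (fun t => (γ t).e) ∧ RM B (fun t => (γ t).M) ∧ RM B (fun t => (γ t).N)

lemma RZ.comp {γ : T → Z} (h : RZ B γ) {f : Z → FD.K} (hf : f ∈ A) : (fun t => f (γ t)) ∈ B := by
  induction hf using Algebra.adjoin_induction with
  | mem x hx =>
    obtain ⟨⟨k, i, j⟩, rfl⟩ := hx
    fin_cases k
    · exact h.1 i j
    · exact h.2.1 i j
    · exact h.2.2 i j
  | algebraMap r => exact B.algebraMap_mem r
  | add x y _ _ hx hy => exact B.add_mem hx hy
  | mul x y _ _ hx hy => exact B.mul_mem hx hy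

lemma RZ.compM {γ : T → Z} (h : RZ B γ) {g : Z → Mat} (hg : RM A g) : RM B (fun t => g (γ t)) :=
  fun i j => h.comp (hg i j)

lemma addXYZ_mem {v : T → Fin 3 → FD.K} (hv : ∀ i, (fun t => v t i) ∈ B) (w : Fin 3 → FD.K) :
    ∀ i, (fun t => W.addXYZ (v t) w i) ∈ B := by
  intro i
  let P : Fin 3 → B := fun i => ⟨_, hv i⟩
  let Q : Fin 3 → B := fun i => algebraMap FD.K B (w i)
  let W' : WeierstrassCurve.Projective B := W.map (algebraMap FD.K B)
  have : (fun t => W.addXYZ (v t) w i) = ((W'.addXYZ P Q i : B) : T → FD.K) := by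
    funext t
    let φ : B →+* FD.K := (Pi.evalRingHom (fun _ : T => FD.K) t).comp B.val.toRingHom
    have h1 := congrFun (WeierstrassCurve.Projective.map_addXYZ (W' := W') φ P Q) i
    have h2 : W'.map φ = W := by
      simp only [W', WeierstrassCurve.map_map]
      have : φ.comp (algebraMap FD.K B) = RingHom.id FD.K := by ext; rfl
      rw [this]; rfl
    rw [h2] at h1
    exact h1
  rw [this]
  exact (W'.addXYZ P Q i).2

end RM

lemma RM_e : RM A Z.e := fun i j => co_mem (0, i, j)
lemma RM_M : RM A Z.M := fun i j => co_mem (1, i, j)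
lemma RM_N : RM A Z.N := fun i j => co_mem (2, i, j)

/-- evaluation at a point -/
noncomputable def ev (z : Z) : A →ₐ[FD.K] FD.K := (Pi.evalAlgHom FD.K (fun _ : Z => FD.K) z).comp A.val

@[simp] lemma ev_apply (z : Z) (f : A) : ev z f = (f : Z → FD.K) z := rfl

lemma ev_inj : Function.Injective ev := by
  intro z z' h
  have : ∀ k, co k z = co k z' := fun k => DFunLike.congr_fun h ⟨co k, co_mem k⟩
  ext i j
  · exact this (0, i, j)
  · exact this (1, i, j)
  · exact this (2, i, j)

/-- the universal matrices -/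
noncomputable def uM (k : Fin 3) : Matrix (Fin 3) (Fin 3) A :=
  Matrix.of fun i j => ⟨co (k, i, j), co_mem _⟩

lemma A_ext {f g : A} (h : ∀ z, ev z f = ev z g) : f = g := Subtype.ext (funext h)

lemma uM_isX : IsX (uM 0) := by
  refine ⟨fun i j k l => A_ext fun z => ?_, A_ext fun z => ?_, fun j => A_ext fun z => ?_⟩
  · exact z.hX.1 i j k l
  · exact z.hX.2.1
  · have := map_Fc (ev z).toRingHom (fun i => uM 0 i j)
    exact this.trans (z.hX.2.2 j)

lemma uM_eq : uM 0 * uM 1 * (1 - uM 0) = 0 := by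
  ext i j : 1
  apply A_ext
  intro z
  have h1 : (ev z).toRingHom.mapMatrix (uM 0 * uM 1 * (1 - uM 0)) = z.e * z.M * (1 - z.e) := by
    rw [map_mul, map_mul, map_sub, map_one]; rfl
  rw [z.hM] at h1
  exact congrFun (congrFun h1 i) j

lemma hom_eq_ev (χ : A →ₐ[FD.K] FD.K) : ∃ z, χ = ev z := by
  have hM : (uM 0).map χ * (uM 1).map χ * (1 - (uM 0).map χ) = 0 := by
    have h1 := congrArg χ.toRingHom.mapMatrix uM_eq
    rw [map_mul, map_mul, map_sub, map_one, map_zero] at h1
    exact h1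
  refine ⟨⟨(uM 0).map χ, (uM 1).map χ, (uM 2).map χ, uM_isX.map χ.toRingHom, hM⟩, ?_⟩
  apply AlgHom.ext
  rintro ⟨f, hf⟩
  induction hf using Algebra.adjoin_induction with
  | mem x hx =>
    obtain ⟨⟨k, i, j⟩, rfl⟩ := hx
    fin_cases k <;> rfl
  | algebraMap r => exact (χ.commutes r).trans rfl
  | add x y hx' hy' hx hy =>
    have : (⟨x + y, A.add_mem hx' hy'⟩ : A) = ⟨x, hx'⟩ + ⟨y, hy'⟩ := rfl
    rw [this, map_add, map_add, hx, hy]
  | mul x y hx' hy' hx hy =>
    have : (⟨x * y, A.mul_mem hx' hy'⟩ : A) = ⟨x, hx'⟩ * ⟨y, hy'⟩ := rfl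
    rw [this, map_mul, map_mul, hx, hy]

instance A_finiteType : Algebra.FiniteType FD.K A := by
  classical
  have : A.FG := ⟨(Set.finite_range co).toFinset, by simp [A]⟩
  exact (Subalgebra.fg_iff_finiteType A).1 this

lemma nullstellensatz (I : Ideal A) (h : ∀ z, ∃ f ∈ I, ev z f ≠ 0) : I = ⊤ := by
  by_contra hI
  obtain ⟨m, hm, hIm⟩ := Ideal.exists_le_maximal I hI
  let _ := Ideal.Quotient.field m
  have hfin : Module.Finite FD.K (A ⧸ m) := finite_of_finite_type_of_isJacobsonRing FD.K (A ⧸ m)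
  have hbij : Function.Bijective (algebraMap FD.K (A ⧸ m)) :=
    IsAlgClosed.algebraMap_bijective_of_isIntegral
  let E : FD.K ≃ₐ[FD.K] (A ⧸ m) := AlgEquiv.ofBijective (Algebra.ofId FD.K (A ⧸ m)) hbij
  obtain ⟨z, hz⟩ := hom_eq_ev ((E.symm : (A ⧸ m) →ₐ[FD.K] FD.K).comp (Ideal.Quotient.mkₐ FD.K m))
  obtain ⟨f, hf, hf0⟩ := h z
  apply hf0
  rw [← hz]
  have : Ideal.Quotient.mk m f = 0 := Ideal.Quotient.eq_zero_iff_mem.2 (hIm hf)
  simp [this]

/-- local polynomial formulas for a translation -/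
lemma local_law (a : W.Point) (z0 : Z) : ∃ v : Z → Fin 3 → FD.K, (∀ i, (fun z => v z i) ∈ A) ∧
    (∀ z, InL (z.pt + a) (v z)) ∧ v z0 ≠ 0 := by
  obtain ⟨j, hj⟩ := exists_diag z0.over.1
  by_cases h : z0.pt = a
  · obtain ⟨b, hb1, hb2⟩ := exists_aux a
    refine ⟨fun z => W.addXYZ (W.addXYZ (fun i => z.e i j) (rep b)) (rep (a - b)),
      addXYZ_mem (addXYZ_mem (fun i => RM_e i j) _) _, fun z => ?_, ?_⟩
    · have := law (q := a - b) (law (q := b) (z.over.2 j))
      rwa [add_assoc, add_sub_cancel] at this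
    · obtain ⟨k1, k2⟩ := law_ne (q := b) (z0.over.2 j) (col_ne hj) (h ▸ hb1)
      exact (law_ne (q := a - b) k1 k2 (h ▸ hb2)).2
  · exact ⟨fun z => W.addXYZ (fun i => z.e i j) (rep a), addXYZ_mem (fun i => RM_e i j) _,
      fun z => law (z.over.2 j), (law_ne (z0.over.2 j) (col_ne hj) h).2⟩

/-- a regular family of projectors onto the translated point -/
lemma exists_proj (a : W.Point) : ∃ ε : Z → Mat, RM A ε ∧ ∀ z, Over (ε z) (z.pt + a) := by
  let I : Ideal A :=
    { carrier := {f | ∃ ε : Z → Mat, RM A ε ∧ (∀ z j, InL (z.pt + a) (fun i => ε z i j)) ∧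
        ∀ z, ev z f = ε z 0 0 + ε z 1 1 + ε z 2 2}
      add_mem' := by
        rintro f g ⟨ε, h1, h2, h3⟩ ⟨δ, k1, k2, k3⟩
        refine ⟨fun z => ε z + δ z, h1.add k1, fun z j => (h2 z j).add (k2 z j), fun z => ?_⟩
        rw [map_add, h3, k3]
        simp only [Matrix.add_apply]; ring
      zero_mem' := ⟨fun _ => 0, RM.const 0, fun z j => InL.zero _, fun z => by simp⟩
      smul_mem' := by
        rintro g f ⟨ε, h1, h2, h3⟩
        refine ⟨fun z => (g : Z → FD.K) z • ε z, RM.smul g.2 h1, fun z j => (h2 z j).smul _,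
          fun z => ?_⟩
        rw [smul_eq_mul, map_mul, h3]
        simp only [Matrix.smul_apply, smul_eq_mul, ev_apply]; ring }
  have hI : I = ⊤ := by
    apply nullstellensatz
    intro z0
    obtain ⟨v, h1, h2, h3⟩ := local_law a z0
    obtain ⟨i, hi⟩ := Function.ne_iff.1 h3
    refine ⟨⟨_, h1 i⟩, ⟨fun z => Matrix.of fun a b => if b = i then v z a else 0, ?_, ?_, ?_⟩, hi⟩
    · intro a b
      by_cases hb : b = i
      · simpa [hb] using h1 a
      · simpa [hb] using const_mem A 0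
    · intro z j
      by_cases hb : j = i
      · simpa [hb] using h2 z
      · simp only [Matrix.of_apply, hb, if_false]
        exact InL.zero _
    · intro z
      fin_cases i <;> simp
  have h1 : (1 : A) ∈ I := by rw [hI]; trivial
  obtain ⟨ε, h1, h2, h3⟩ := h1
  exact ⟨ε, h1, fun z => ⟨by rw [← h3 z, map_one], h2 z⟩⟩

end Pool.Agent.Lib.MP_00f3b1_ag.Gen
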