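import Mathlib
import Pool.Agent.Lib.MP_00f3b1_ag.Auto

/-!
Translation to schemes.
-/

set_option autoImplicit false

open AlgebraicGeometry CategoryTheory

namespace Pool.Agent.Lib.MP_00f3b1_ag

/-- the scheme -/
noncomputable abbrev XS : Scheme.{0} := Spec (CommRingCat.of A)

/-- the structure ring map -/
noncomputable abbrev st : CommRingCat.of ℂ ⟶ CommRingCat.of A := CommRingCat.ofHom (algebraMap ℂ A)

/-- the structure morphism -/
noncomputable abbrev fS : XS ⟶ Spec (CommRingCat.of ℂ) := Spec.map st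

/-- complex points -/
abbrev Pts : Type := {p : Spec (CommRingCat.of ℂ) ⟶ XS // p ≫ fS = 𝟙 _}

/-- the point attached to a point of the variety -/
noncomputable def toPt (z : Z) : Pts :=
  ⟨Spec.map (CommRingCat.ofHom (ev z).toRingHom), by
    rw [← Spec.map_comp, ← Spec.map_id]
    refine congrArg Spec.map ?_
    ext c
    exact (ev z).commutes c⟩

lemma toPt_inj : Function.Injective toPt := by
  intro z z' h
  have h1 := Spec.map_injective (congrArg Subtype.val h)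
  apply ev_inj
  ext f
  exact congrArg (fun φ : CommRingCat.of A ⟶ CommRingCat.of ℂ => φ.hom f) h1

lemma toPt_surj : Function.Surjective toPt := by
  rintro ⟨p, hp⟩
  obtain ⟨φ, rfl⟩ := Spec.map_surjective p
  rw [← Spec.map_comp, ← Spec.map_id] at hp
  have h1 := Spec.map_injective hp
  let χ : A →ₐ[ℂ] ℂ := ⟨φ.hom, fun c =>
    congrArg (fun ψ : CommRingCat.of ℂ ⟶ CommRingCat.of ℂ => ψ.hom c) h1⟩
  obtain ⟨z, hz⟩ := hom_eq_ev χ
  refine ⟨z, Subtype.ext ?_⟩
  show Spec.map _ = Spec.map φ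
  rw [← hz]
  rfl

lemma iso_of_alg (α : A ≃ₐ[ℂ] A) : ∃ g : XS ≅ XS, g.hom ≫ fS = fS ∧
    ∀ z w : Z, (∀ f, ev z (α f) = ev w f) → (toPt z).1 ≫ g.hom = (toPt w).1 := by
  refine ⟨⟨Spec.map (CommRingCat.ofHom (α : A →+* A)),
    Spec.map (CommRingCat.ofHom (α.symm : A →+* A)), ?_, ?_⟩, ?_, ?_⟩
  · rw [← Spec.map_comp, ← Spec.map_id]
    congr 1
    ext f : 2
    exact α.apply_symm_apply f
  · rw [← Spec.map_comp, ← Spec.map_id]
    congr 1
    ext f : 2
    exact α.symm_apply_apply f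
  · show Spec.map _ ≫ Spec.map _ = Spec.map _
    rw [← Spec.map_comp]
    congr 1
    ext c : 2
    exact α.commutes c
  · intro z w h
    show Spec.map _ ≫ Spec.map _ = Spec.map _
    rw [← Spec.map_comp]
    congr 1
    ext f : 2
    exact h f

lemma alg_of_iso (g : XS ≅ XS) (hg : g.hom ≫ fS = fS) : ∃ α : A ≃ₐ[ℂ] A,
    ∀ z w : Z, (toPt z).1 ≫ g.hom = (toPt w).1 → ∀ f, ev z (α f) = ev w f := by
  obtain ⟨φ, hφ⟩ := Spec.map_surjective g.hom
  obtain ⟨ψ, hψ⟩ := Spec.map_surjective g.inv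
  have h1 : ψ ≫ φ = 𝟙 _ := by
    apply Spec.map_injective
    rw [Spec.map_comp, hφ, hψ, Spec.map_id, g.hom_inv_id]
  have h2 : φ ≫ ψ = 𝟙 _ := by
    apply Spec.map_injective
    rw [Spec.map_comp, hφ, hψ, Spec.map_id, g.inv_hom_id]
  have h3 : st ≫ φ = st := by
    apply Spec.map_injective
    rw [Spec.map_comp, hφ, hg]
  let α : A ≃ₐ[ℂ] A :=
    { toFun := φ.hom
      invFun := ψ.hom
      left_inv := fun f => congrArg (fun χ : CommRingCat.of A ⟶ CommRingCat.of A => χ.hom f) h2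
      right_inv := fun f => congrArg (fun χ : CommRingCat.of A ⟶ CommRingCat.of A => χ.hom f) h1
      map_mul' := φ.hom.map_mul
      map_add' := φ.hom.map_add
      commutes' := fun c =>
        congrArg (fun χ : CommRingCat.of ℂ ⟶ CommRingCat.of A => χ.hom c) h3 }
  refine ⟨α, fun z w h f => ?_⟩
  rw [← hφ] at h
  have h4 : φ ≫ CommRingCat.ofHom (ev z).toRingHom = CommRingCat.ofHom (ev w).toRingHom := by
    apply Spec.map_injective
    rw [Spec.map_comp]
    exact h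
  exact congrArg (fun χ : CommRingCat.of A ⟶ CommRingCat.of ℂ => χ.hom f) h4

lemma fS_finiteType : LocallyOfFiniteType fS := by
  rw [HasRingHomProperty.Spec_iff (P := @LocallyOfFiniteType)]
  exact RingHom.finiteType_algebraMap.2 A_finiteType

lemma XS_dim : (2 : WithBot ℕ∞) ≤ topologicalKrullDim XS := by
  have := PrimeSpectrum.topologicalKrullDim_eq_ringKrullDim A
  exact two_le_dim.trans this.ge

lemma XS_units (u : (Γ(XS, ⊤))ˣ) : ∃ c : ℂ,
    ((Scheme.ΓSpecIso (CommRingCat.of ℂ)).inv ≫ fS.appTop).hom c = (u : Γ(XS, ⊤)) := by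
  obtain ⟨c, hc⟩ := units_const ((Scheme.ΓSpecIso (CommRingCat.of A)).hom.hom u)
    (u.isUnit.map _)
  refine ⟨c, ?_⟩
  rw [← Scheme.ΓSpecIso_inv_naturality]
  show (Scheme.ΓSpecIso (CommRingCat.of A)).inv.hom (algebraMap ℂ A c) = _
  rw [hc]
  exact Iso.hom_inv_id_apply (Scheme.ΓSpecIso (CommRingCat.of A)) _

lemma XS_homog (p q : Pts) : ∃ g : XS ≅ XS, g.hom ≫ fS = fS ∧ p.1 ≫ g.hom = q.1 := by
  obtain ⟨z, rfl⟩ := toPt_surj p
  obtain ⟨w, rfl⟩ := toPt_surj q
  obtain ⟨α, hα⟩ := transitive z w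
  obtain ⟨g, h1, h2⟩ := iso_of_alg α
  exact ⟨g, h1, h2 z w hα⟩

lemma XS_not_two : ¬ ∀ (m : ℕ) (p q : Fin m → Pts), Function.Injective p → Function.Injective q →
    ∃ g : XS ≅ XS, g.hom ≫ fS = fS ∧ ∀ i, (p i).1 ≫ g.hom = (q i).1 := by
  intro h
  obtain ⟨z0, z1, w0, w1, hz, hw, hn⟩ := not_two_transitive
  have inj : ∀ a b : Z, a ≠ b → Function.Injective ![toPt a, toPt b] := by
    intro a b hab i j hij
    fin_cases i <;> fin_cases j
    · rfl
    · exact absurd (toPt_inj hij) hab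
    · exact absurd (toPt_inj hij).symm hab
    · rfl
  obtain ⟨g, h1, h2⟩ := h 2 _ _ (inj _ _ hz) (inj _ _ hw)
  obtain ⟨α, hα⟩ := alg_of_iso g h1
  exact hn ⟨α, hα _ _ (h2 0), hα _ _ (h2 1)⟩

end Pool.Agent.Lib.MP_00f3b1_ag
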